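import Mathlib
import Pool.Agent.H735R2.OselEx

set_option autoImplicit false

open MeasureTheory

namespace Pool.Agent.Results.MP_94eb8e_an.AnnulusNotOseledets

open Pool.Agent.H735R2.Osel

/-- There are a billiard table `B` without corners (a compact connected planar region whose boundary
consists of finitely many disjoint simple closed `C^∞` curves; it has no corners, so it has no cusps)
and an invariant probability measure `μ` of its billiard map `B.T`, giving full mass to the states
whose entire orbit is defined and non-tangential and no mass to the periodic points, which is even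
absolutely continuous with respect to the natural smooth measure `cos φ dr dφ`, such that the
derivative of `B.T` in the coordinates `(r, φ)` exists (and is unique) `μ`-almost everywhere and
`∫ log⁺ ‖DT‖ dμ = ∞`, so `μ` does not satisfy the Oseledets integrability condition. -/
theorem result : ∃ (B : Table) (μ : Measure (ℂ × ℂ)), B.InvariantProb μ ∧ B.NonPeriodic μ ∧
    μ ≪ B.liouville ∧ (∀ᵐ x ∂μ, ∃! A, B.IsDeriv x A) ∧
    (∫⁻ x, ENNReal.ofReal (max 0 (Real.log (B.normDT x))) ∂μ) = ⊤ ∧
    ¬ B.OseledetsIntegrable μ :=
  ⟨ann, mu, mu_prob, mu_nonper, mu_ac, mu_deriv, lint_mu, not_oseledets⟩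

end Pool.Agent.Results.MP_94eb8e_an.AnnulusNotOseledets
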